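import Pool.Agent.Lib.MP_d73b51_an.Ann

namespace Pool.Agent.Results.MP_d73b51_an.Deconvolution

open MeasureTheory Pool.Agent.Lib.MP_d73b51_an
open scoped ENNReal

theorem result (d : ℕ) (hd : 1 ≤ d) (a b : Fin d → ℝ) (hab : ∀ i, a i < b i)
    (p : ℝ≥0∞) [Fact (1 ≤ p)] (𝒦 : Set ((Fin d → ℝ) → ℝ))
    (h1 : ∀ k, IsEntirePD k → k ∈ 𝒦) (h2 : ∀ k ∈ 𝒦, LocallyIntegrable k volume) :
    (∀ k ∈ 𝒦, RegIfInjective (volume.restrict (Set.Icc a b)) p (conv k)) ↔ d = 1 := by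
  constructor
  · intro h
    by_contra hne
    obtain ⟨n, rfl⟩ : ∃ n, d = n + 2 := ⟨d - 2, by omega⟩
    obtain ⟨k, hk, A, a1, a2, a3⟩ :=
      exists_kernel a b hab p (sp_countable n) (uniq_sp n) (sp_far n)
    exact a3 (h k (h1 k hk) A a1 a2)
  · rintro rfl k hk A a1 a2
    exact regularizable_one a b (hab 0) p k (h2 k hk) A a1 a2

end Pool.Agent.Results.MP_d73b51_an.Deconvolution
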